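import Pool.Agent.SGraph33.Small
import Pool.Agent.SGraph33.Family1
import Pool.Agent.SGraph33.Family2
import Pool.Agent.SGraph33.Family3d
import Pool.Agent.SGraph33.SmallDiam

/-!
The set of diameters of primitive cubic S-graphs is exactly the set of integers at least 5.
-/

namespace Pool.Agent.Results.MP_a8a835_co.AllDiameters

open Pool.Agent.SGraph33

theorem result : diameterSet = {n : ℕ | 5 ≤ n} := by
  ext n
  constructor
  · rintro ⟨V, hV, G, h1, h2, h3, rfl⟩
    exact five_le_diam h1 h2 h3
  · intro hn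
    have hn' : 5 ≤ n := hn
    rcases (show n = 5 ∨ n = 7 ∨ (∃ K, 3 ≤ K ∧ n = 2 * K) ∨
      (∃ m, 2 ≤ m ∧ n = 2 * (2 * m) + 1) ∨ (∃ m, 2 ≤ m ∧ n = 2 * (2 * m) + 3) by
        rcases (show n % 4 = 0 ∨ n % 4 = 1 ∨ n % 4 = 2 ∨ n % 4 = 3 by omega) with h | h | h | h
        · right; right; left; exact ⟨n / 2, by omega, by omega⟩
        · rcases (show n = 5 ∨ 9 ≤ n by omega) with h5 | h5
          · exact Or.inl h5
          · right; right; right; left; exact ⟨n / 4, by omega, by omega⟩
        · right; right; left; exact ⟨n / 2, by omega, by omega⟩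
        · rcases (show n = 7 ∨ 11 ≤ n by omega) with h5 | h5
          · exact Or.inr (Or.inl h5)
          · right; right; right; right; exact ⟨(n - 3) / 4, by omega, by omega⟩) with
      rfl | rfl | ⟨K, hK, rfl⟩ | ⟨m, hm, rfl⟩ | ⟨m, hm, rfl⟩
    · exact five_mem
    · exact seven_mem
    · have : NeZero K := ⟨by omega⟩
      exact V1_mem_diameterSet hK
    · have : NeZero (2 * m) := ⟨by omega⟩
      exact V2_mem_diameterSet (K := 2 * m) (m := m) rfl hm
    · have : NeZero (2 * m) := ⟨by omega⟩
      exact V3_mem_diameterSet (K := 2 * m) (m := m) rfl hm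

end Pool.Agent.Results.MP_a8a835_co.AllDiameters
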